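import Pool.Agent.Lib.MP_ac5134_an.AE.Hered

/-!
The volume form of the Kakeya inequality for all families of tubes, with a loss polynomial in the
inverse of the additive energy of their labels, in every dimension `n = d + 1 ≥ 2`.

1. The volume form, for all families and all shadings, with a loss polynomial in `|G|³ / E(G)`.
2. Its contrapositive, for all dense parts: if the volume form fails by a power `N ^ ε` then every
   part `H` of the labels with `|H| ≥ N ^ (-ε/2) |G|` has additive energy at most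
   `C N ^ (-ε² / (A log (2/ε))) |H|³`.
-/

namespace Pool.Agent.Results.MP_ac5134_an.AdditiveEnergy

open Pool.Agent.MPac5134 MeasureTheory
open scoped ENNReal Pointwise

/-- at most `K` caps have their foot in one cell of the grid `(1/N) Z^d` -/
def AtMost {d : ℕ} {ι : Type} (K : ℕ) (N : ℝ) (θ : ι → Cap d) : Prop :=
  ∀ z : Fin d → ℤ, ∀ s : Finset ι, (∀ i ∈ s, cell N (θ i) = z) → s.card ≤ K

/-- `Y i` is a measurable part of the tube `i`, of at least `lam` times its volume -/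
def IsShading {d : ℕ} {ι : Type} (lam N : ℝ) (θ : ι → Cap d) (c : ι → Sp d)
    (Y : ι → Set (Sp d)) : Prop :=
  ∀ i, MeasurableSet (Y i) ∧ Y i ⊆ tube N (θ i) (c i) ∧
    ENNReal.ofReal lam * volume (tube N (θ i) (c i)) ≤ volume (Y i)

theorem result (d : ℕ) (hd : 1 ≤ d) :
    ∃ A : ℝ, 0 < A ∧ ∀ (K : ℕ) (ε : ℝ), 0 < ε → ε ≤ 1 → ∃ C : ℝ, 0 < C ∧
      ∀ N : ℝ, 1 ≤ N → ∀ (ι : Type) [Fintype ι] (θ : ι → Cap d) (c : ι → Sp d),
      AtMost K N θ → ∀ G : Finset (Fin d ⊕ Fin (d + 1) → ℤ), G = labels N θ c →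
      (∀ lam : ℝ, 0 < lam → lam ≤ 1 → ∀ Y : ι → Set (Sp d), IsShading lam N θ c Y →
        ∑ i, volume (tube N (θ i) (c i)) ≤
          ENNReal.ofReal (C * N ^ ε * (2 * (G.card : ℝ) ^ 3 / G.addEnergy G) ^
            (A / ε * Real.log (2 / (ε * lam)))) * volume (⋃ i, Y i)) ∧
      (volume (⋃ i, tube N (θ i) (c i)) ≤
          ENNReal.ofReal (N ^ (-ε)) * ∑ i, volume (tube N (θ i) (c i)) →
        ∀ H ⊆ G, N ^ (-(ε / 2)) * (G.card : ℝ) ≤ H.card →
        (H.addEnergy H : ℝ) ≤
          C * N ^ (-(ε ^ 2 / (A * Real.log (2 / ε)))) * (H.card : ℝ) ^ 3) := by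
  obtain ⟨A1, hA1, h1⟩ := AE.energy_hered (d := d) hd
  obtain ⟨A2, hA2, h2⟩ := AE.volume_energy (d := d) hd
  refine ⟨A1 + A2, by linarith, ?_⟩
  intro K ε hε hε1
  obtain ⟨C1, hC1, h1⟩ := h1 K ε hε hε1
  obtain ⟨C2, hC2, h2⟩ := h2 K ε hε hε1
  refine ⟨C1 + C2, by linarith, ?_⟩
  intro N hN ι _ θ c hK G hG
  have hN0 : 0 < N := by linarith
  have hNε : 0 < N ^ ε := by positivity
  have hlog2 := Real.log_two_gt_d9
  refine ⟨?_, ?_⟩
  · intro lam hlam hlam1 Y hY
    have h := h2 N hN ι θ c hK lam hlam hlam1 Y hY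
    rw [← hG] at h
    refine h.trans (mul_le_mul' (ENNReal.ofReal_le_ofReal ?_) le_rfl)
    have hel : 0 < ε * lam := by positivity
    have hel1 : ε * lam ≤ 1 := mul_le_one₀ hε1 hlam.le hlam1
    have hlog : 0 < Real.log (2 / (ε * lam)) := by
      apply Real.log_pos
      rw [lt_div_iff₀ hel]
      linarith
    rcases G.eq_empty_or_nonempty with h0 | hne
    · rw [h0]
      have e1 : (2 * (((∅ : Finset (Fin d ⊕ Fin (d + 1) → ℤ)).card : ℕ) : ℝ) ^ 3 /
          ((∅ : Finset (Fin d ⊕ Fin (d + 1) → ℤ)).addEnergy ∅ : ℕ)) = 0 := by simp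
      rw [e1, Real.zero_rpow (by positivity), Real.zero_rpow (by positivity)]
      simp
    have hE0 := AE.addEnergy_pos' hne
    have hE1 := AE.addEnergy_le_cube G
    have hL1 : 1 ≤ 2 * (G.card : ℝ) ^ 3 / G.addEnergy G := by
      rw [le_div_iff₀ hE0]
      linarith
    have hpow : (2 * (G.card : ℝ) ^ 3 / G.addEnergy G) ^ (A2 / ε * Real.log (2 / (ε * lam))) ≤
        (2 * (G.card : ℝ) ^ 3 / G.addEnergy G) ^ ((A1 + A2) / ε * Real.log (2 / (ε * lam))) := by
      apply Real.rpow_le_rpow_of_exponent_le hL1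
      gcongr
      linarith
    have hpos : 0 < (2 * (G.card : ℝ) ^ 3 / G.addEnergy G) ^
        (A2 / ε * Real.log (2 / (ε * lam))) := Real.rpow_pos_of_pos (by linarith) _
    gcongr
    linarith
  · intro hv H hHG hH
    rw [hG] at hHG hH
    have h := h1 N hN ι θ c hK hv H hHG hH
    refine h.trans ?_
    have hΛ : 0 < Real.log (2 / ε) := by
      apply Real.log_pos
      rw [lt_div_iff₀ hε]
      linarith
    have hpow : N ^ (-(ε ^ 2 / (A1 * Real.log (2 / ε)))) ≤
        N ^ (-(ε ^ 2 / ((A1 + A2) * Real.log (2 / ε)))) := by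
      apply Real.rpow_le_rpow_of_exponent_le hN
      apply neg_le_neg
      apply div_le_div_of_nonneg_left (by positivity) (by positivity)
      gcongr
      linarith
    have h0 : 0 < N ^ (-(ε ^ 2 / (A1 * Real.log (2 / ε)))) := by positivity
    gcongr
    linarith

end Pool.Agent.Results.MP_ac5134_an.AdditiveEnergy
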