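import Pool.Agent.Lib.MP_ac5134_an.KX.MainY
import Pool.Agent.Lib.MP_ac5134_an.KX.Stm

/-!
# The Kakeya maximal function, exponent 1.67514

Let `1 < α ≤ 2`, `α³ - 4α + 2 > 0` (that is `α > 1.675130…`).  There is `d₀` such that the following
holds for all `d ≥ 1` (`n = d + 1 ≥ 2`) with `e = max d d₀` (so `e = d` for all `d ≥ d₀`).

For all `K`, `κ`, `ε > 0` there is `C` such that for all `N ≥ 1`, all finite families of caps with at
most `K` feet in every cell of the grid `(1/N) Z^d`, and all translates of the tubes: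

1. if the family has at least `κ N^d` members then
   `‖∑ T_θ‖_p ≤ C N^(ε + β) ‖∑ T_{θ,0}‖_p` with `β = (1 - d/e)/p` for `1 + α/e ≤ p ≤ ∞` and
   `β = (1 - (p - 1) d/α)/p` for `1 ≤ p ≤ 1 + α/e`.  For `d ≥ d₀` this is the inequality of the
   conjecture (`β = 0`) for every `p ∈ [1 + α/d, ∞]`;
2. for every family the inequality holds with `β = d (1 - 1/α) (1 - 1/p)` for `1 ≤ p ≤ 1 + α/e`;
3. (restricted weak type of the maximal function)
   if `E` is measurable and contains at least the proportion `lam` of every tube then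
   `|E ∩ ⋃ T_θ| ≥ C⁻¹ N^(-ε) lam^(1 + e/α) |ι|^(1/α) N^(n+1)`.

Moreover (Hausdorff dimension):

4. if `D` is a nonempty set of unit vectors of `R^n`, `dim D ≥ b`, and every `v ∈ D` is the direction
   of a line which meets `E` in a set of dimension at least `s` (`0 < s ≤ 1`), then
   `dim E ≥ s + (b - (1 - s) e)/α`;
5. if `E` contains a unit segment in every direction then `dim E ≥ 1 + (n - 1)/α`.
-/

open MeasureTheory Pool.Agent.MPac5134 Pool.Agent.MPac5134.KX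

namespace Pool.Agent.Results.MP_ac5134_an.KakeyaMaximal

theorem result {α : ℝ} (h1 : 1 < α) (h2 : α ≤ 2) (h : 0 < α ^ 3 - 4 * α + 2) :
    ∃ d₀ : ℕ, ∀ d e : ℕ, 1 ≤ d → e = max d d₀ →
      (∀ (K : ℕ) (κ ε : ℝ), 0 < κ → 0 < ε → ∃ C : ℝ, ∀ (N : ℝ), 1 ≤ N →
        ∀ (ι : Type) [Fintype ι] (θ : ι → Cap d) (c : ι → Sp d), FewFeet K N θ →
        (κ * N ^ d ≤ Fintype.card ι →
          (∀ p : ENNReal, ENNReal.ofReal (1 + α / e) ≤ p →
            NormIneq N θ c p (C * N ^ (ε + (1 - d / e) / p.toReal))) ∧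
          (∀ p : ℝ, 1 ≤ p → p ≤ 1 + α / e →
            NormIneq N θ c (ENNReal.ofReal p) (C * N ^ (ε + (1 - (p - 1) * d / α) / p)))) ∧
        (∀ p : ℝ, 1 ≤ p → p ≤ 1 + α / e →
          NormIneq N θ c (ENNReal.ofReal p) (C * N ^ (ε + d * (1 - 1 / α) * (1 - 1 / p)))) ∧
        MaximalIneq N θ c (1 + e / α) (1 / α) (C * N ^ ε)) ∧
      (∀ (s b : ℝ) (D E : Set (Sp d)), 0 < s → s ≤ 1 → 0 ≤ b → D.Nonempty →
        ENNReal.ofReal b ≤ dimH D → MeetsLines E D s →
        ENNReal.ofReal (s + (b - (1 - s) * e) / α) ≤ dimH E) ∧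
      (∀ E : Set (Sp d), KakeyaSet E → ENNReal.ofReal (1 + d / α) ≤ dimH E) := by
  obtain ⟨d₀, H⟩ := mainY h1 h2 h
  refine ⟨d₀, fun d e hd he => ?_⟩
  obtain ⟨H1, H2, H3⟩ := H d e hd he
  refine ⟨H1, fun s b D E hs0 hs1 hb hD hDb hE => ?_, H3⟩
  exact H2 s b D E hs0 hs1 hb hD (fun v hv => (hE v hv).1) hDb (fun v hv => (hE v hv).2)

end Pool.Agent.Results.MP_ac5134_an.KakeyaMaximal
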