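import Pool.Agent.Lib.MP_ac5134_an.SD.SumsDiff
import Pool.Agent.Lib.MP_ac5134_an.SD.Mink

/-!
# The sums-differences theorem with exponent 1.66959 and the volume form of the Kakeya problem

0. (Sums-differences.) There is a finite set `F` of rational slopes such that every finite set `G` of
   pairs `(a, b)` in a rational vector space, with `(a, b) ↦ b` injective on `G` and at most `M`
   values of `a + t b` for every `t ∈ F`, has at most `M ^ 1.66959` elements.
1. For every `n = d + 1 ≥ 2`: the union of the tubes of a family of caps with at most `K` caps in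
   every cell, all translates, has measure at least `c |ι|^(1/1.66959) N^(n+1)`, and
   `∑ |T_θ| ≤ C N^((n-1)(1-1/1.66959)) |⋃ T_θ|`.
2. The same in the classical form: the `δ`-neighbourhood of a set of `R^n` that contains a unit
   segment in every direction has measure at least `c δ^((n-1)(1-1/1.66959))`, so the Minkowski
   dimension of the set is at least `(n-1)/1.66959 + 1`.

All three come from the entropy form of the first, `Pool.Agent.MPac5134.SD.main_ineq`.
-/

open MeasureTheory Pool.Agent.MPac5134 Pool.Agent.MPac5134.SD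

namespace Pool.Agent.Results.MP_ac5134_an.KakeyaVolume

theorem result :
    (∃ F : Finset ℚ, ∀ (V : Type) [AddCommGroup V] [Module ℚ V] (G : Set (V × V)) (M : ℝ),
      G.Finite → Set.InjOn Prod.snd G →
      (∀ t ∈ F, (((fun g : V × V => g.1 + t • g.2) '' G).ncard : ℝ) ≤ M) →
      (G.ncard : ℝ) ≤ M ^ (1.66959 : ℝ)) ∧
    (∀ d K : ℕ, 1 ≤ d → ∃ C : ℝ, ∀ N : ℝ, 1 ≤ N →
      ∀ (ι : Type) [Fintype ι] (θ : ι → Cap d) (c : ι → Sp d),
      (∀ (z : Fin d → ℤ) (s : Finset ι), (∀ i ∈ s, cell N (θ i) = z) → s.card ≤ K) →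
      ENNReal.ofReal ((Fintype.card ι : ℝ) ^ (1 / (1.66959 : ℝ)) * N ^ (d + 2)) ≤
          ENNReal.ofReal C * volume (⋃ i, tube N (θ i) (c i)) ∧
        ∑ i, volume (tube N (θ i) (c i)) ≤
          ENNReal.ofReal (C * N ^ (d * (1 - 1 / (1.66959 : ℝ)))) *
            volume (⋃ i, tube N (θ i) (c i))) ∧
    (∀ d : ℕ, 1 ≤ d → ∃ c : ℝ, 0 < c ∧ ∀ E : Set (EuclideanSpace ℝ (Fin (d + 1))),
      (∀ v : EuclideanSpace ℝ (Fin (d + 1)), ‖v‖ = 1 →
        ∃ x, ∀ t : ℝ, 0 ≤ t → t ≤ 1 → x + t • v ∈ E) →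
      ∀ δ : ℝ, 0 < δ → δ ≤ 1 →
        ENNReal.ofReal (c * δ ^ (d * (1 - 1 / (1.66959 : ℝ)))) ≤
          volume (Metric.thickening δ E)) := by
  obtain ⟨F, hF⟩ := main_ineq
  have hα : (166959 / 100000 : ℝ) = 1.66959 := by norm_num
  rw [hα] at hF
  have h1 : (1 : ℝ) ≤ 1.66959 := by norm_num
  refine ⟨sums_differences, ?_, fun d hd => mink hd h1 hF⟩
  intro d K hd
  obtain ⟨C1, hC1, H1⟩ := all_tubes hd h1 hF K
  obtain ⟨C2, hC2, H2⟩ := sum_tubes hd h1 hF K
  refine ⟨max C1 C2, ?_⟩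
  intro N hN ι _ θ c hK
  constructor
  · refine (H1 N hN ι θ c hK).trans ?_
    gcongr
    exact le_max_left _ _
  · refine (H2 N hN ι θ c hK).trans ?_
    gcongr
    exact le_max_right _ _

end Pool.Agent.Results.MP_ac5134_an.KakeyaVolume
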