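import Pool.Agent.Lib.MP_ac5134_an.STK.KMink

/-!
# The Kakeya problem in all dimensions: all families with their local multiplicities; sticky families

`n = d + 1 ≥ 2`, `B ≥ 2` an integer, `ε > 0`.

1. There is `C` such that for all `m`, `N` with `B^m ≤ N`, every finite family of tubes `T_i` and every `G` that is
integrable on every `T_i`: `∑ |T_i| exp (mean of G over T_i) / D_i ≤ C N^ε ∫_{⋃ T_i} e^G`, where `D_i = factor` is
the number of tubes in the cell of level `m` of `T_i` times the product over `k < m` of the number of tubes with the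
same position cell of level `k` and the same direction cell of level `k + 1`, divided by the number of those that
are in the same position cell of level `k + 1`; or `D_i = factorPos`, with the product of the numbers `numPos` of
position cells of level `k + 1` of these tubes.
2. With at most `K` feet per cell, `B^m ≤ N ≤ B^(m+1)` and at most `K'` position cells of level `k` in the direction
cell of level `k` of `T_i` (`numStick`), for all `i` and `1 ≤ k ≤ m`: the same without `D_i`.  If only the geometric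
mean of the numbers `numStick` over `i` and `1 ≤ k ≤ m` is at most `K'`: the same with the mean over the tubes of
the means of `G`.
3. Classical form: sets that contain a sticky family of unit segments.
-/

open MeasureTheory Pool.Agent.MPac5134 Pool.Agent.MPac5134.Lip STK

namespace Pool.Agent.Results.MP_ac5134_an.StickyKakeya

theorem result (d B : ℕ) (ε : ℝ) (hd : 1 ≤ d) (hB : 2 ≤ B) (hε : 0 < ε) :
    (∃ C : ℝ, ∀ (m : ℕ) (N : ℝ), (B : ℝ) ^ m ≤ N →
      ∀ (ι : Type) [Fintype ι] (θ : ι → Cap d) (x : ι → Sp d) (G : Sp d → ℝ),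
      (∀ i, IntegrableOn G (tube N (θ i) (x i))) →
      meanSum N θ x G (factor B N θ x m) ≤ ENNReal.ofReal (C * N ^ ε) * expInt N θ x G ∧
      meanSum N θ x G (factorPos B N θ x m) ≤ ENNReal.ofReal (C * N ^ ε) * expInt N θ x G) ∧
    (∀ (K : ℕ) (K' : ℝ), ∃ C : ℝ, ∀ (m : ℕ) (N : ℝ), (B : ℝ) ^ m ≤ N → N ≤ (B : ℝ) ^ (m + 1) →
      ∀ (ι : Type) [Fintype ι] (θ : ι → Cap d) (x : ι → Sp d) (G : Sp d → ℝ), FewFeet K N θ →
      (∀ i, IntegrableOn G (tube N (θ i) (x i))) →
      ((∀ k, 1 ≤ k → k ≤ m → ∀ i, (numStick B N θ x k i : ℝ) ≤ K') →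
        meanSum N θ x G (fun _ => 1) ≤ ENNReal.ofReal (C * N ^ ε) * expInt N θ x G) ∧
      ((gmean fun q : Fin m × ι => (numStick B N θ x (q.1 + 1) q.2 : ℝ)) ≤ K' →
        meanAll N θ x G ≤ ENNReal.ofReal (C * N ^ ε) * expInt N θ x G)) ∧
    (∀ K' : ℕ, ∃ c : ℝ, 0 < c ∧ ∀ (A : Set (Fin d → ℝ)) (a : (Fin d → ℝ) → Sp d) (E : Set (Sp d)),
      (∀ ω ∈ A, ∑ i, ω i ^ 2 ≤ 1) →
      (∀ ω ∈ A, ∀ t : ℝ, |t| ≤ 1 / 2 → a ω + t • dirVec ω ∈ E) → StickyLines B K' A a →
      ∀ δ : ℝ, 0 < δ → δ ≤ 1 →
        ENNReal.ofReal (c * δ ^ (d + ε)) *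
          ((fun ω (r : Fin d) => ⌊ω r / δ⌋) '' A).encard ≤ volume (Metric.thickening δ E)) := by
  have hB2 : (2 : ℝ) ≤ B := by exact_mod_cast hB
  have hBm : ∀ m : ℕ, (0 : ℝ) < (B : ℝ) ^ m := fun m => pow_pos (by linarith) m
  refine ⟨?_, ?_, fun K' => mink_sticky hB hd K' hε⟩
  · obtain ⟨C1, hC1, h1⟩ := max_factor (B := B) (d := d) hB hd hε
    obtain ⟨C2, hC2, h2⟩ := max_pos (B := B) (d := d) hB hd hε
    refine ⟨max C1 C2, ?_⟩
    intro m N hN ι _ θ x G hG
    have hN0 : 0 < N := (hBm m).trans_le hN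
    have hNε : 0 ≤ N ^ ε := (Real.rpow_pos_of_pos hN0 _).le
    have key : ∀ (D : ι → ℝ), (∀ i, 0 ≤ D i) → ∀ i,
        ENNReal.ofReal (Real.exp (⨍ z in tube N (θ i) (x i), G z) / D i) *
          volume (tube N (θ i) (x i)) =
        ENNReal.ofReal (N ^ (d + 2) / D i * Real.exp (⨍ z in tube N (θ i) (x i), G z)) := by
      intro D hD i
      rw [volume_tube hN0.le, ← ENNReal.ofReal_mul (div_nonneg (Real.exp_pos _).le (hD i))]
      congr 1
      ring
    unfold meanSum
    constructor
    · rw [Finset.sum_congr rfl fun i _ => key (factor B N θ x m) (fun i => by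
        unfold factor
        positivity) i]
      exact (h1 m N hN ι θ x G hG).trans (mul_le_mul_left (ENNReal.ofReal_le_ofReal
        (mul_le_mul_of_nonneg_right (le_max_left _ _) hNε)) _)
    · rw [Finset.sum_congr rfl fun i _ => key (factorPos B N θ x m) (fun i => by
        unfold factorPos
        positivity) i]
      exact (h2 m N hN ι θ x G hG).trans (mul_le_mul_left (ENNReal.ofReal_le_ofReal
        (mul_le_mul_of_nonneg_right (le_max_right _ _) hNε)) _)
  · intro K K'
    obtain ⟨C1, h1⟩ := max_sticky (B := B) (d := d) hB hd K K' hε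
    obtain ⟨C2, h2⟩ := mean_sticky (B := B) (d := d) hB hd K K' hε
    refine ⟨max C1 C2, ?_⟩
    intro m N hN1 hN2 ι _ θ x G hov hG
    have hN0 : 0 < N := (hBm m).trans_le hN1
    have hNε : 0 ≤ N ^ ε := (Real.rpow_pos_of_pos hN0 _).le
    constructor
    · intro hst
      refine le_trans (le_of_eq ?_) ((h1 m N hN1 hN2 ι θ x hov hst G hG).trans
        (mul_le_mul_left (ENNReal.ofReal_le_ofReal
        (mul_le_mul_of_nonneg_right (le_max_left _ _) hNε)) _))
      unfold meanSum
      refine Finset.sum_congr rfl fun i _ => ?_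
      rw [volume_tube hN0.le, div_one, ← ENNReal.ofReal_mul (Real.exp_pos _).le, mul_comm]
    · intro hst
      refine le_trans (le_of_eq ?_) ((h2 m N hN1 hN2 ι θ x hov hst G hG).trans
        (mul_le_mul_left (ENNReal.ofReal_le_ofReal
        (mul_le_mul_of_nonneg_right (le_max_right _ _) hNε)) _))
      unfold meanAll
      simp_rw [volume_tube hN0.le]
      rw [Finset.sum_const, Finset.card_univ, nsmul_eq_mul, ← ENNReal.ofReal_natCast,
        ← ENNReal.ofReal_mul (Nat.cast_nonneg _), ← ENNReal.ofReal_mul (Real.exp_pos _).le]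
      congr 1
      ring

end Pool.Agent.Results.MP_ac5134_an.StickyKakeya
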